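import Pool.Agent.N53.CF.Stm
import Pool.Agent.N676.OR.Diag

/-!
# Convergents of normal numbers and primes which divide a linear form exactly once (helper file)

The analogue of `Pool.Agent.N676.OR.orbit_principle` and `Pool.Agent.N18.KM.parts_tw` for the vectors
`(p_n, q_n)` of the convergents of a continued fraction normal number. Owner helper322.
-/

set_option autoImplicit false

namespace Pool.Agent.N322.CF

open MeasureTheory Filter Topology
open Pool.Agent.N24.RW (ProNull)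
open Pool.Agent.N53.CF
open Pool.Agent.W811.Stu (gauss dig)
open Pool.Agent.N676.OR (Hit Big lin pro_hits DensityZero diag dz_empty)

/-- countably many pronull sets, one set of indices of density zero -/
theorem one_set (hM : S_CF) {κ : Type} [Countable κ] (B : κ → Set (Fin 2 → ℤ))
    (hB : ∀ x, ProNull (B x)) (α : ℝ) (hα : CFNormal α) :
    ∃ E : Set ℕ, DensityZero E ∧ ∀ x, {n : ℕ | n ∉ E ∧ cvg (dig α) n ∈ B x}.Finite := by
  classical
  rcases isEmpty_or_nonempty κ with hκ | hκ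
  · exact ⟨∅, dz_empty, fun x => (hκ.false x).elim⟩
  obtain ⟨f, hf⟩ := exists_surjective_nat κ
  obtain ⟨E, hE1, hE2⟩ := diag (fun k => {n : ℕ | cvg (dig α) n ∈ B (f k)})
    (fun k => hM (B (f k)) (hB (f k)) α hα)
  refine ⟨E, hE1, fun x => ?_⟩
  obtain ⟨k, rfl⟩ := hf x
  refine (hE2 k).subset ?_
  rintro n ⟨hn1, hn2⟩
  exact ⟨hn2, hn1⟩

/-- For countably many properties of integers which hold for all integers which are divisible exactly
once by a prime of each of finitely many big sets: one set of indices of density zero for all the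
properties and all the linear forms in the numerators and denominators of the convergents. -/
theorem cf_tw (hM : S_CF) {𝔇 : Type} [Countable 𝔇] (good : 𝔇 → ℤ → Prop)
    (h : ∀ D, ∃ PP : Set (Set ℕ), PP.Finite ∧ (∀ P ∈ PP, Big P) ∧
      ∀ a : ℤ, (∀ P ∈ PP, Hit P a) → good D a) (α : ℝ) (hα : CFNormal α) :
    ∃ E : Set ℕ, DensityZero E ∧ ∀ lam : Fin 2 → ℤ, lam ≠ 0 → ∀ D,
      {n : ℕ | n ∉ E ∧ ¬ good D (∑ i, lam i * cvg (dig α) n i)}.Finite := by
  classical
  choose PP h1 h2 h3 using h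
  obtain ⟨E, hE1, hE2⟩ := one_set hM (κ := {lam : Fin 2 → ℤ // lam ≠ 0} × 𝔇)
    (fun x => {c : Fin 2 → ℤ | ¬ ∀ P ∈ PP x.2, Hit P (lin x.1.1 c)})
    (fun x => pro_hits (h1 x.2) (h2 x.2) x.1.2) α hα
  refine ⟨E, hE1, fun lam hlam D => (hE2 (⟨lam, hlam⟩, D)).subset ?_⟩
  rintro n ⟨hn, hng⟩
  exact ⟨hn, fun hall => hng (h3 D _ hall)⟩

/-- the same with the linear form `u p_n + v q_n` -/
theorem cf_tw' (hM : S_CF) {𝔇 : Type} [Countable 𝔇] (good : 𝔇 → ℤ → Prop)
    (h : ∀ D, ∃ PP : Set (Set ℕ), PP.Finite ∧ (∀ P ∈ PP, Big P) ∧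
      ∀ a : ℤ, (∀ P ∈ PP, Hit P a) → good D a) (α : ℝ) (hα : CFNormal α) :
    ∃ E : Set ℕ, DensityZero E ∧ ∀ u v : ℤ, u ≠ 0 ∨ v ≠ 0 → ∀ D,
      {n : ℕ | n ∉ E ∧ ¬ good D (u * cvg (dig α) n 0 + v * cvg (dig α) n 1)}.Finite := by
  obtain ⟨E, hE1, hE2⟩ := cf_tw hM good h α hα
  refine ⟨E, hE1, fun u v huv D => ?_⟩
  have h1 : (![u, v] : Fin 2 → ℤ) ≠ 0 := by
    intro h0
    have h2 := congrFun h0 0
    have h3 := congrFun h0 1
    simp at h2 h3
    rcases huv with h4 | h4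
    · exact h4 h2
    · exact h4 h3
  refine (hE2 _ h1 D).subset ?_
  rintro n ⟨hn, hg⟩
  refine ⟨hn, ?_⟩
  rw [Fin.sum_univ_two]
  simpa using hg

end Pool.Agent.N322.CF
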